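import Pool.Agent.Helper15.HS.GoalsC
import Pool.Agent.Helper67.Lin.MOLC

/-!
# PMP: mollification and the Cauchy-Riemann operator in the space of integrable functions
-/

open Complex Metric Set Filter Topology MeasureTheory
open scoped ContDiff ComplexConjugate ComplexOrder Manifold Matrix

namespace Pool.Agent.Helper63.HS

open Pool.Agent.Helper95.Lin
open Pool.Agent.Helper10.SP hiding mollc
open Pool.Agent.Helper15.HS Pool.Agent.Helper67.Lin

variable {n : ℕ}

/-! ## Circles -/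

/-- The point of the unit circle. -/
noncomputable def ee (θ : ℝ) : ℂ := Complex.exp (θ * I)

theorem ee_norm (θ : ℝ) : ‖ee θ‖ = 1 := Complex.norm_exp_ofReal_mul_I θ

theorem ee_cont : Continuous ee := by unfold ee; fun_prop

theorem ee_deriv (θ : ℝ) : HasDerivAt ee (ee θ * I) θ := by
  have h1 : HasDerivAt (fun t : ℝ => (t : ℂ) * I) (1 * I) θ :=
    (Complex.ofRealCLM.hasDerivAt (x := θ)).mul_const I
  have h2 := h1.cexp
  rw [one_mul] at h2
  exact h2

theorem ee_zero : ee 0 = 1 := by simp [ee]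

theorem ee_two_pi : ee (2 * Real.pi) = 1 := by
  unfold ee
  push_cast
  exact Complex.exp_two_pi_mul_I

/-! ## Linear algebra -/

theorem lin_sum (L : Cn n →L[ℝ] ℂ) (w : Cn n) :
    L w = ∑ l, (((w l).re : ℂ) * L (Pi.single l 1) + ((w l).im : ℂ) * L (Pi.single l I)) := by
  have h1 : w = ∑ l, ((w l).re • (Pi.single l 1 : Cn n) + (w l).im • (Pi.single l I : Cn n)) := by
    ext j
    rw [Finset.sum_apply, Finset.sum_eq_single j]
    · simp only [Pi.add_apply, Pi.smul_apply, Pi.single_eq_same, Complex.real_smul, mul_one]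
      exact (Complex.re_add_im _).symm
    · intro b _ hb
      simp [Ne.symm hb]
    · intro h
      exact absurd (Finset.mem_univ _) h
  conv_lhs => rw [h1]
  rw [map_sum]
  refine Finset.sum_congr rfl (fun l _ => ?_)
  rw [map_add, map_smul, map_smul, Complex.real_smul, Complex.real_smul]

theorem lin_id (L : Cn n →L[ℝ] ℂ) (v : Cn n) :
    L v + I * L (I • v) =
      ∑ l, conj (v l) * (L (Pi.single l 1) + I * L (Pi.single l I)) := by
  rw [lin_sum L v, lin_sum L (I • v), Finset.mul_sum, ← Finset.sum_add_distrib]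
  refine Finset.sum_congr rfl (fun l _ => ?_)
  have h1 : ((I • v) l).re = -(v l).im := by
    rw [Pi.smul_apply, smul_eq_mul, Complex.I_mul_re]
  have h2 : ((I • v) l).im = (v l).re := by
    rw [Pi.smul_apply, smul_eq_mul, Complex.I_mul_im]
  have h3 : conj (v l) = ((v l).re : ℂ) - ((v l).im : ℂ) * I := by
    apply Complex.ext <;> simp
  rw [h1, h2, h3]
  push_cast
  linear_combination (((v l).im : ℂ) * L (Pi.single l I)) * Complex.I_mul_I

/-! ## The mean value over circles -/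

/-- The derivative along the radius. -/
noncomputable def dR (F : Cn n → ℂ) (x y : Cn n) (ρ θ : ℝ) : ℂ :=
  fderiv ℝ F (x - ((ρ : ℂ) * ee θ) • y) (-(ee θ • y))

/-- The derivative along the circle. -/
noncomputable def dT (F : Cn n → ℂ) (x y : Cn n) (ρ θ : ℝ) : ℂ :=
  fderiv ℝ F (x - ((ρ : ℂ) * ee θ) • y) (I • (-(ee θ • y)))

/-- The Cauchy-Riemann part. -/
noncomputable def dB (F : Cn n → ℂ) (x y : Cn n) (ρ θ : ℝ) : ℂ :=
  ∑ l, conj ((-(ee θ • y)) l) * cdb l F (x - ((ρ : ℂ) * ee θ) • y)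

theorem dB_eq (F : Cn n → ℂ) (x y : Cn n) (ρ θ : ℝ) :
    dB F x y ρ θ = dR F x y ρ θ + I * dT F x y ρ θ :=
  (lin_id _ _).symm

theorem fd_cont {F : Cn n → ℂ} (hF : ContDiff ℝ ∞ F) : Continuous (fderiv ℝ F) :=
  hF.continuous_fderiv (by simp)

theorem dR_cont {F : Cn n → ℂ} (hF : ContDiff ℝ ∞ F) (x : Cn n) :
    Continuous fun p : Cn n × ℝ × ℝ => dR F x p.1 p.2.1 p.2.2 := by
  unfold dR
  have h1 := fd_cont hF
  have h2 : Continuous fun p : Cn n × ℝ × ℝ => x - ((p.2.1 : ℂ) * ee p.2.2) • p.1 := by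
    have := ee_cont
    fun_prop
  have h3 : Continuous fun p : Cn n × ℝ × ℝ => -(ee p.2.2 • p.1) := by
    have := ee_cont
    fun_prop
  exact (h1.comp h2).clm_apply h3

theorem dT_cont {F : Cn n → ℂ} (hF : ContDiff ℝ ∞ F) (x : Cn n) :
    Continuous fun p : Cn n × ℝ × ℝ => dT F x p.1 p.2.1 p.2.2 := by
  unfold dT
  have h1 := fd_cont hF
  have h2 : Continuous fun p : Cn n × ℝ × ℝ => x - ((p.2.1 : ℂ) * ee p.2.2) • p.1 := by
    have := ee_cont
    fun_prop
  have h3 : Continuous fun p : Cn n × ℝ × ℝ => I • (-(ee p.2.2 • p.1)) := by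
    have := ee_cont
    fun_prop
  exact (h1.comp h2).clm_apply h3

theorem dB_cont {F : Cn n → ℂ} (hF : ContDiff ℝ ∞ F) (x : Cn n) :
    Continuous fun p : Cn n × ℝ × ℝ => dB F x p.1 p.2.1 p.2.2 := by
  simp only [dB_eq]
  exact (dR_cont hF x).add (continuous_const.mul (dT_cont hF x))

theorem hasDeriv_R {F : Cn n → ℂ} (hF : ContDiff ℝ ∞ F) (x y : Cn n) (ρ θ : ℝ) :
    HasDerivAt (fun s : ℝ => F (x - ((s : ℂ) * ee θ) • y)) (dR F x y ρ θ) ρ := by
  have h1 : HasDerivAt (fun s : ℝ => x - ((s : ℂ) * ee θ) • y) (-(ee θ • y)) ρ := by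
    have h2 : HasDerivAt (fun s : ℝ => (s : ℂ) * ee θ) (1 * ee θ) ρ :=
      (Complex.ofRealCLM.hasDerivAt (x := ρ)).mul_const _
    have h3 := (h2.smul_const y).const_sub x
    rwa [one_mul] at h3
  have h4 : HasFDerivAt F (fderiv ℝ F (x - ((ρ : ℂ) * ee θ) • y)) (x - ((ρ : ℂ) * ee θ) • y) :=
    (hF.differentiable (by simp) _).hasFDerivAt
  exact h4.comp_hasDerivAt ρ h1

theorem hasDeriv_T {F : Cn n → ℂ} (hF : ContDiff ℝ ∞ F) (x y : Cn n) (ρ θ : ℝ) :
    HasDerivAt (fun t : ℝ => F (x - ((ρ : ℂ) * ee t) • y)) ((ρ : ℂ) * dT F x y ρ θ) θ := by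
  have h1 : HasDerivAt (fun t : ℝ => x - ((ρ : ℂ) * ee t) • y)
      (ρ • (I • (-(ee θ • y)))) θ := by
    have h2 : HasDerivAt (fun t : ℝ => (ρ : ℂ) * ee t) ((ρ : ℂ) * (ee θ * I)) θ :=
      (ee_deriv θ).const_mul _
    have h3 := (h2.smul_const y).const_sub x
    have h5 : -(((ρ : ℂ) * (ee θ * I)) • y) = ρ • (I • (-(ee θ • y))) := by
      ext j
      simp only [Pi.neg_apply, Pi.smul_apply, smul_eq_mul, Complex.real_smul]
      ring
    rwa [h5] at h3
  have h4 : HasFDerivAt F (fderiv ℝ F (x - ((ρ : ℂ) * ee θ) • y)) (x - ((ρ : ℂ) * ee θ) • y) :=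
    (hF.differentiable (by simp) _).hasFDerivAt
  have h6 := h4.comp_hasDerivAt θ h1
  rw [map_smul, Complex.real_smul] at h6
  exact h6

/-- The mean over the circle of the radial derivative is the mean of the Cauchy-Riemann part. -/
theorem circle_eq {F : Cn n → ℂ} (hF : ContDiff ℝ ∞ F) (x y : Cn n) {ρ : ℝ} (hρ : ρ ≠ 0) :
    ∫ θ in (0 : ℝ)..(2 * Real.pi), dR F x y ρ θ = ∫ θ in (0 : ℝ)..(2 * Real.pi), dB F x y ρ θ := by
  have hcR : Continuous fun θ => dR F x y ρ θ :=
    (dR_cont hF x).comp (by fun_prop : Continuous fun θ : ℝ => (y, ρ, θ))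
  have hcT : Continuous fun θ => dT F x y ρ θ :=
    (dT_cont hF x).comp (by fun_prop : Continuous fun θ : ℝ => (y, ρ, θ))
  have h1 : ∫ θ in (0 : ℝ)..(2 * Real.pi), (ρ : ℂ) * dT F x y ρ θ = 0 := by
    rw [intervalIntegral.integral_eq_sub_of_hasDerivAt
      (f := fun t : ℝ => F (x - ((ρ : ℂ) * ee t) • y))
      (fun θ _ => hasDeriv_T hF x y ρ θ)
      ((continuous_const.mul hcT).intervalIntegrable _ _)]
    rw [ee_zero, ee_two_pi, sub_self]
  rw [intervalIntegral.integral_const_mul] at h1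
  have h2 : ∫ θ in (0 : ℝ)..(2 * Real.pi), dT F x y ρ θ = 0 := by
    rcases mul_eq_zero.1 h1 with h | h
    · exact absurd (by exact_mod_cast h) hρ
    · exact h
  have h3 : IntervalIntegrable (fun θ => I * dT F x y ρ θ) volume 0 (2 * Real.pi) :=
    (continuous_const.mul hcT).intervalIntegrable _ _
  simp only [dB_eq]
  rw [intervalIntegral.integral_add (hcR.intervalIntegrable _ _) h3,
    intervalIntegral.integral_const_mul, h2, mul_zero, add_zero]

theorem radial_eq {F : Cn n → ℂ} (hF : ContDiff ℝ ∞ F) (x y : Cn n) (θ : ℝ) :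
    ∫ ρ in (0 : ℝ)..1, dR F x y ρ θ = F (x - ee θ • y) - F x := by
  have hcR : Continuous fun ρ => dR F x y ρ θ :=
    (dR_cont hF x).comp (by fun_prop : Continuous fun ρ : ℝ => (y, ρ, θ))
  rw [intervalIntegral.integral_eq_sub_of_hasDerivAt
    (f := fun t : ℝ => F (x - ((t : ℂ) * ee θ) • y))
    (fun ρ _ => hasDeriv_R hF x y ρ θ) (hcR.intervalIntegrable _ _)]
  simp

/-! ## The parameter space -/

/-- The parameter space. -/
def DT (n : ℕ) (ε : ℝ) : Set (Cn n × ℝ × ℝ) :=
  closedBall (0 : Cn n) ε ×ˢ (Ioc (0 : ℝ) 1 ×ˢ Ioc (0 : ℝ) (2 * Real.pi))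

theorem DT_meas (ε : ℝ) : MeasurableSet (DT n ε) :=
  measurableSet_closedBall.prod (measurableSet_Ioc.prod measurableSet_Ioc)

theorem muT_eq (ε : ℝ) : (volume : Measure (Cn n × ℝ × ℝ)).restrict (DT n ε) =
    ((volume : Measure (Cn n)).restrict (closedBall (0 : Cn n) ε)).prod
      (((volume : Measure ℝ).restrict (Ioc (0 : ℝ) 1)).prod
        ((volume : Measure ℝ).restrict (Ioc (0 : ℝ) (2 * Real.pi)))) := by
  unfold DT
  rw [Measure.prod_restrict, Measure.prod_restrict, ← Measure.volume_eq_prod ℝ ℝ,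
    ← Measure.volume_eq_prod (Cn n) (ℝ × ℝ)]

theorem DT_sub (ε : ℝ) : DT n ε ⊆
    closedBall (0 : Cn n) ε ×ˢ (Icc (0 : ℝ) 1 ×ˢ Icc (0 : ℝ) (2 * Real.pi)) :=
  prod_mono le_rfl (prod_mono Ioc_subset_Icc_self Ioc_subset_Icc_self)

theorem DT_cpt (ε : ℝ) : IsCompact
    (closedBall (0 : Cn n) ε ×ˢ (Icc (0 : ℝ) 1 ×ˢ Icc (0 : ℝ) (2 * Real.pi))) :=
  (isCompact_closedBall _ _).prod (isCompact_Icc.prod isCompact_Icc)

theorem int_T {E : Type*} [NormedAddCommGroup E] {G : Cn n × ℝ × ℝ → E} (hG : Continuous G)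
    (ε : ℝ) : IntegrableOn G (DT n ε) :=
  (hG.continuousOn.integrableOn_compact (DT_cpt ε)).mono_set (DT_sub ε)

theorem int_q {E : Type*} [NormedAddCommGroup E] {G : ℝ × ℝ → E} (hG : Continuous G) :
    Integrable G (((volume : Measure ℝ).restrict (Ioc (0 : ℝ) 1)).prod
        ((volume : Measure ℝ).restrict (Ioc (0 : ℝ) (2 * Real.pi)))) := by
  rw [Measure.prod_restrict, ← Measure.volume_eq_prod]
  exact (hG.continuousOn.integrableOn_compact (isCompact_Icc.prod isCompact_Icc)).mono_set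
    (prod_mono Ioc_subset_Icc_self Ioc_subset_Icc_self)

theorem two_pi_pos : 0 < 2 * Real.pi := by positivity

/-- The inner integral. -/
theorem inner_eq {F : Cn n → ℂ} (hF : ContDiff ℝ ∞ F) (x y : Cn n) :
    ∫ q : ℝ × ℝ, dB F x y q.1 q.2 ∂(((volume : Measure ℝ).restrict (Ioc (0 : ℝ) 1)).prod
        ((volume : Measure ℝ).restrict (Ioc (0 : ℝ) (2 * Real.pi)))) =
      ∫ θ in Ioc (0 : ℝ) (2 * Real.pi), (F (x - ee θ • y) - F x) := by
  have hcB : Continuous fun q : ℝ × ℝ => dB F x y q.1 q.2 :=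
    Continuous.comp (g := fun p : Cn n × ℝ × ℝ => dB F x p.1 p.2.1 p.2.2)
      (f := fun q : ℝ × ℝ => (y, q.1, q.2)) (dB_cont hF x) (by fun_prop)
  have hcR : Continuous fun q : ℝ × ℝ => dR F x y q.1 q.2 :=
    Continuous.comp (g := fun p : Cn n × ℝ × ℝ => dR F x p.1 p.2.1 p.2.2)
      (f := fun q : ℝ × ℝ => (y, q.1, q.2)) (dR_cont hF x) (by fun_prop)
  rw [integral_prod _ (int_q hcB)]
  have h1 : ∫ ρ in Ioc (0 : ℝ) 1, ∫ θ in Ioc (0 : ℝ) (2 * Real.pi), dB F x y ρ θ =
      ∫ ρ in Ioc (0 : ℝ) 1, ∫ θ in Ioc (0 : ℝ) (2 * Real.pi), dR F x y ρ θ := by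
    refine setIntegral_congr_fun measurableSet_Ioc (fun ρ hρ => ?_)
    rw [← intervalIntegral.integral_of_le two_pi_pos.le,
      ← intervalIntegral.integral_of_le two_pi_pos.le]
    exact (circle_eq hF x y hρ.1.ne').symm
  simp only at h1 ⊢
  rw [h1, integral_integral_swap (f := fun ρ θ => dR F x y ρ θ) (int_q hcR)]
  refine setIntegral_congr_fun measurableSet_Ioc (fun θ _ => ?_)
  rw [← intervalIntegral.integral_of_le zero_le_one]
  exact radial_eq hF x y θ

/-- Rotation invariance of the mollification. -/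
theorem mollc_rot (F : Cn n → ℂ) (ε : ℝ) (x : Cn n) {c : ℂ} (hc : ‖c‖ = 1) :
    ∫ y, F (x - c • y) * (mol n ε y : ℂ) = mollc F ε x := by
  have hc0 : c ≠ 0 := by
    intro h
    rw [h, norm_zero] at hc
    exact zero_ne_one hc
  have h1 := (rot_mp (n := n) hc).integral_comp (measurableEmbedding_const_smul₀ hc0)
    (fun z => F (x - z) * (mol n ε z : ℂ))
  unfold mollc
  rw [← h1]
  refine integral_congr_ae (Eventually.of_forall fun y => ?_)
  simp only []
  rw [mol_rot ε hc]

theorem slice_eq {F : Cn n → ℂ} (hF : ContDiff ℝ ∞ F) {ε : ℝ} (hε : 0 < ε) (x : Cn n) (θ : ℝ) :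
    ∫ y in closedBall (0 : Cn n) ε, (mol n ε y : ℂ) * (F (x - ee θ • y) - F x) =
      mollc F ε x - F x := by
  have h0 : ∫ y in closedBall (0 : Cn n) ε, (mol n ε y : ℂ) * (F (x - ee θ • y) - F x) =
      ∫ y, (mol n ε y : ℂ) * (F (x - ee θ • y) - F x) := by
    refine setIntegral_eq_integral_of_forall_compl_eq_zero (fun y hy => ?_)
    have : mol n ε y = 0 := by
      by_contra h
      exact hy (mem_closedBall_zero_iff.2 (norm_lt_of_mol hε h).le)
    rw [this]
    simp
  have hmc : Continuous fun y : Cn n => (mol n ε y : ℂ) :=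
    Complex.continuous_ofReal.comp (mol_cont ε)
  have hms : HasCompactSupport fun y : Cn n => (mol n ε y : ℂ) :=
    (mol_cs hε).comp_left (g := fun t : ℝ => (t : ℂ)) (by simp)
  have h1 : Integrable fun y : Cn n => F (x - ee θ • y) * (mol n ε y : ℂ) := by
    have hc : Continuous fun y : Cn n => F (x - ee θ • y) :=
      hF.continuous.comp (by fun_prop)
    exact (hc.mul hmc).integrable_of_hasCompactSupport hms.mul_left
  have h2 : Integrable fun y : Cn n => F x * (mol n ε y : ℂ) :=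
    (hmc.integrable_of_hasCompactSupport hms).const_mul _
  rw [h0]
  have h3 : (fun y : Cn n => (mol n ε y : ℂ) * (F (x - ee θ • y) - F x)) =
      fun y => F (x - ee θ • y) * (mol n ε y : ℂ) - F x * (mol n ε y : ℂ) := by
    ext y
    ring
  have h4 : ∫ y : Cn n, (mol n ε y : ℂ) = 1 := by
    have h5 := integral_ofReal (𝕜 := ℂ) (f := mol n ε) (μ := (volume : Measure (Cn n)))
    rw [mol_int hε] at h5
    exact_mod_cast h5
  rw [h3, integral_sub h1 h2, mollc_rot F ε x (ee_norm θ), integral_const_mul, h4, mul_one]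

/-- The main identity. -/
theorem main_eq {F : Cn n → ℂ} (hF : ContDiff ℝ ∞ F) {ε : ℝ} (hε : 0 < ε) (x : Cn n) :
    ∫ p in DT n ε, (mol n ε p.1 : ℂ) * dB F x p.1 p.2.1 p.2.2 =
      ((2 * Real.pi : ℝ) : ℂ) * (mollc F ε x - F x) := by
  have hmc : Continuous fun y : Cn n => (mol n ε y : ℂ) :=
    Complex.continuous_ofReal.comp (mol_cont ε)
  have hc : Continuous fun p : Cn n × ℝ × ℝ => (mol n ε p.1 : ℂ) * dB F x p.1 p.2.1 p.2.2 :=
    (hmc.comp continuous_fst).mul (dB_cont hF x)
  have hi := int_T hc ε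
  unfold IntegrableOn at hi
  rw [muT_eq] at hi ⊢
  rw [integral_prod _ hi]
  have h1 : ∀ y : Cn n, ∫ q : ℝ × ℝ, (mol n ε y : ℂ) * dB F x y q.1 q.2
      ∂(((volume : Measure ℝ).restrict (Ioc (0 : ℝ) 1)).prod
        ((volume : Measure ℝ).restrict (Ioc (0 : ℝ) (2 * Real.pi)))) =
      ∫ θ in Ioc (0 : ℝ) (2 * Real.pi), (mol n ε y : ℂ) * (F (x - ee θ • y) - F x) := by
    intro y
    rw [integral_const_mul, inner_eq hF, integral_const_mul]
  simp only [h1]
  have hc2 : Continuous fun p : Cn n × ℝ =>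
      (mol n ε p.1 : ℂ) * (F (x - ee p.2 • p.1) - F x) := by
    have h3 : Continuous fun p : Cn n × ℝ => F (x - ee p.2 • p.1) := by
      have := ee_cont
      exact hF.continuous.comp (by fun_prop)
    exact (hmc.comp continuous_fst).mul (h3.sub continuous_const)
  have hi2 : Integrable (Function.uncurry fun (y : Cn n) (θ : ℝ) =>
      (mol n ε y : ℂ) * (F (x - ee θ • y) - F x))
      (((volume : Measure (Cn n)).restrict (closedBall (0 : Cn n) ε)).prod
        ((volume : Measure ℝ).restrict (Ioc (0 : ℝ) (2 * Real.pi)))) := by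
    rw [Measure.prod_restrict, ← Measure.volume_eq_prod]
    exact (hc2.continuousOn.integrableOn_compact
      ((isCompact_closedBall (0 : Cn n) ε).prod (isCompact_Icc (a := (0 : ℝ))
        (b := 2 * Real.pi)))).mono_set (prod_mono le_rfl Ioc_subset_Icc_self)
  rw [integral_integral_swap hi2]
  have h4 : ∀ θ : ℝ, ∫ y in closedBall (0 : Cn n) ε, (mol n ε y : ℂ) * (F (x - ee θ • y) - F x) =
      mollc F ε x - F x := fun θ => slice_eq hF hε x θ
  simp only [h4]
  rw [setIntegral_const, Measure.real, Real.volume_Ioc, sub_zero,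
    ENNReal.toReal_ofReal two_pi_pos.le, Complex.real_smul]

/-! ## The estimate -/

/-- The size of the derivatives. -/
noncomputable def SS (F : Cn n → ℂ) (x : Cn n) : ℝ := ∑ l, ‖cdb l F x‖

theorem SS_nonneg (F : Cn n → ℂ) (x : Cn n) : 0 ≤ SS F x :=
  Finset.sum_nonneg fun _ _ => norm_nonneg _

theorem SS_cont {F : Cn n → ℂ} (hF : ContDiff ℝ ∞ F) : Continuous (SS F) := by
  unfold SS cdb
  have h1 := fd_cont hF
  fun_prop

theorem dB_le (F : Cn n → ℂ) (x y : Cn n) (ρ θ : ℝ) :
    ‖dB F x y ρ θ‖ ≤ ‖y‖ * SS F (x - ((ρ : ℂ) * ee θ) • y) := by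
  unfold dB SS
  rw [Finset.mul_sum]
  refine (norm_sum_le _ _).trans (Finset.sum_le_sum fun l _ => ?_)
  rw [norm_mul]
  refine mul_le_mul_of_nonneg_right ?_ (norm_nonneg _)
  rw [RCLike.norm_conj, Pi.neg_apply, Pi.smul_apply, norm_neg, smul_eq_mul, norm_mul, ee_norm,
    one_mul]
  exact norm_le_pi_norm y l

/-- The pointwise bound. -/
theorem pt_le {F : Cn n → ℂ} (hF : ContDiff ℝ ∞ F) {ε : ℝ} (hε : 0 < ε) (x : Cn n) :
    ‖F x - mollc F ε x‖ ≤ (2 * Real.pi)⁻¹ *
      ∫ p in DT n ε, ε * (mol n ε p.1 * SS F (x - ((p.2.1 : ℂ) * ee p.2.2) • p.1)) := by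
  have h1 := main_eq hF hε x
  have hcS : Continuous fun p : Cn n × ℝ × ℝ =>
      ε * (mol n ε p.1 * SS F (x - ((p.2.1 : ℂ) * ee p.2.2) • p.1)) := by
    have h2 := ee_cont
    have h3 : Continuous fun p : Cn n × ℝ × ℝ => SS F (x - ((p.2.1 : ℂ) * ee p.2.2) • p.1) :=
      (SS_cont hF).comp (by fun_prop)
    exact continuous_const.mul (((mol_cont ε).comp continuous_fst).mul h3)
  have h2 : ‖∫ p in DT n ε, (mol n ε p.1 : ℂ) * dB F x p.1 p.2.1 p.2.2‖ ≤
      ∫ p in DT n ε, ε * (mol n ε p.1 * SS F (x - ((p.2.1 : ℂ) * ee p.2.2) • p.1)) := by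
    refine norm_integral_le_of_norm_le (int_T hcS ε) ?_
    refine (ae_restrict_iff' (DT_meas ε)).2 (Eventually.of_forall fun p hp => ?_)
    rw [norm_mul, Complex.norm_real, Real.norm_of_nonneg (mol_nonneg hε _)]
    have h3 := dB_le F x p.1 p.2.1 p.2.2
    have h4 : ‖p.1‖ ≤ ε := mem_closedBall_zero_iff.1 hp.1
    have h5 := SS_nonneg F (x - ((p.2.1 : ℂ) * ee p.2.2) • p.1)
    have h6 := mol_nonneg (n := n) hε p.1
    calc mol n ε p.1 * ‖dB F x p.1 p.2.1 p.2.2‖
        ≤ mol n ε p.1 * (ε * SS F (x - ((p.2.1 : ℂ) * ee p.2.2) • p.1)) :=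
          mul_le_mul_of_nonneg_left (h3.trans (mul_le_mul_of_nonneg_right h4 h5)) h6
      _ = ε * (mol n ε p.1 * SS F (x - ((p.2.1 : ℂ) * ee p.2.2) • p.1)) := by ring
  rw [h1, norm_mul, Complex.norm_real, Real.norm_of_nonneg two_pi_pos.le, norm_sub_rev] at h2
  rw [inv_mul_eq_div, le_div_iff₀ two_pi_pos, mul_comm]
  exact h2

theorem trans_le {F : Cn n → ℂ} (hF : ContDiff ℝ ∞ F) (a : Cn n) {r ε : ℝ} {v : Cn n}
    (hv : ‖v‖ ≤ ε) :
    ∫ x in closedBall a r, SS F (x - v) ≤ ∫ x in closedBall a (r + ε), SS F x := by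
  have h1 : ∫ x in closedBall a r, SS F (x - v) = ∫ x in closedBall (a - v) r, SS F x := by
    rw [← integral_indicator measurableSet_closedBall, ← integral_indicator measurableSet_closedBall,
      ← integral_sub_right_eq_self (fun x => (closedBall (a - v) r).indicator (SS F) x) v]
    congr 1
    ext x
    by_cases hx : x ∈ closedBall a r
    · rw [indicator_of_mem hx, indicator_of_mem]
      rw [mem_closedBall_iff_norm] at hx ⊢
      rwa [sub_sub_sub_cancel_right]
    · rw [indicator_of_notMem hx, indicator_of_notMem]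
      intro h
      apply hx
      rw [mem_closedBall_iff_norm] at h ⊢
      rwa [sub_sub_sub_cancel_right] at h
  rw [h1]
  refine setIntegral_mono_set ((SS_cont hF).continuousOn.integrableOn_compact
    (isCompact_closedBall _ _)) (Eventually.of_forall fun x => SS_nonneg F x) ?_
  refine Eventually.of_forall fun x hx => ?_
  refine closedBall_subset_closedBall' ?_ hx
  rw [dist_eq_norm, sub_sub_cancel_left, norm_neg]
  linarith

/-- The estimate for smooth functions. -/
theorem pmp_smooth {F : Cn n → ℂ} (hF : ContDiff ℝ ∞ F) (a : Cn n) {r ε : ℝ}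
    (hε : 0 < ε) :
    ∫ x in closedBall a r, ‖F x - mollc F ε x‖ ≤
      ε * ∫ x in closedBall a (r + ε), SS F x := by
  set Φ : Cn n → Cn n × ℝ × ℝ → ℝ := fun x p =>
    ε * (mol n ε p.1 * SS F (x - ((p.2.1 : ℂ) * ee p.2.2) • p.1)) with hΦ
  have hcΦ : Continuous (Function.uncurry Φ) := by
    have h2 := ee_cont
    have h3 : Continuous fun z : Cn n × (Cn n × ℝ × ℝ) =>
        SS F (z.1 - ((z.2.2.1 : ℂ) * ee z.2.2.2) • z.2.1) :=
      (SS_cont hF).comp (by fun_prop)
    have h4 : Continuous fun z : Cn n × (Cn n × ℝ × ℝ) => mol n ε z.2.1 :=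
      (mol_cont ε).comp (by fun_prop)
    exact continuous_const.mul (h4.mul h3)
  have hi : Integrable (Function.uncurry Φ)
      (((volume : Measure (Cn n)).restrict (closedBall a r)).prod
        ((volume : Measure (Cn n × ℝ × ℝ)).restrict (DT n ε))) := by
    rw [Measure.prod_restrict, ← Measure.volume_eq_prod]
    exact (hcΦ.continuousOn.integrableOn_compact
      ((isCompact_closedBall a r).prod (DT_cpt ε))).mono_set (prod_mono le_rfl (DT_sub ε))
  have h1 : ∫ x in closedBall a r, ‖F x - mollc F ε x‖ ≤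
      ∫ x in closedBall a r, (2 * Real.pi)⁻¹ * ∫ p in DT n ε, Φ x p := by
    refine integral_mono_of_nonneg (Eventually.of_forall fun x => norm_nonneg _)
      (hi.integral_prod_left.const_mul _) (Eventually.of_forall fun x => ?_)
    exact pt_le hF hε x
  refine h1.trans ?_
  rw [integral_const_mul, integral_integral_swap hi]
  have h2 : ∫ p in DT n ε, ∫ x in closedBall a r, Φ x p ≤
      ∫ p in DT n ε, ε * (∫ x in closedBall a (r + ε), SS F x) * mol n ε p.1 := by
    refine setIntegral_mono_on ?_ ?_ (DT_meas ε) ?_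
    · exact hi.integral_prod_right
    · exact int_T (continuous_const.mul ((mol_cont ε).comp continuous_fst)) ε
    · intro p hp
      have h3 : ∫ x in closedBall a r, Φ x p =
          ε * (mol n ε p.1 * ∫ x in closedBall a r,
            SS F (x - ((p.2.1 : ℂ) * ee p.2.2) • p.1)) := by
        rw [← integral_const_mul, ← integral_const_mul]
      rw [h3]
      have h4 : ‖((p.2.1 : ℂ) * ee p.2.2) • p.1‖ ≤ ε := by
        rw [norm_smul, norm_mul, ee_norm, mul_one, Complex.norm_real,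
          Real.norm_of_nonneg hp.2.1.1.le]
        have h5 : ‖p.1‖ ≤ ε := mem_closedBall_zero_iff.1 hp.1
        calc p.2.1 * ‖p.1‖ ≤ 1 * ε :=
              mul_le_mul hp.2.1.2 h5 (norm_nonneg _) zero_le_one
          _ = ε := one_mul _
      have h5 := trans_le hF a (r := r) h4
      have h6 := mol_nonneg (n := n) hε p.1
      have h7 := mul_le_mul_of_nonneg_left h5 (mul_nonneg hε.le h6)
      linarith
  have h3 : ∫ p in DT n ε, ε * (∫ x in closedBall a (r + ε), SS F x) * mol n ε p.1 =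
      ε * (∫ x in closedBall a (r + ε), SS F x) * (2 * Real.pi) := by
    rw [integral_const_mul]
    congr 1
    have hi3 : Integrable (fun p : Cn n × ℝ × ℝ => mol n ε p.1)
        (((volume : Measure (Cn n)).restrict (closedBall (0 : Cn n) ε)).prod
      (((volume : Measure ℝ).restrict (Ioc (0 : ℝ) 1)).prod
        ((volume : Measure ℝ).restrict (Ioc (0 : ℝ) (2 * Real.pi))))) := by
      have h4 := int_T (n := n) ((mol_cont ε).comp continuous_fst) ε
      unfold IntegrableOn at h4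
      rwa [muT_eq] at h4
    rw [muT_eq, integral_prod _ hi3]
    simp only [integral_const]
    rw [integral_smul]
    have h5 : ∫ y in closedBall (0 : Cn n) ε, mol n ε y = 1 := by
      rw [setIntegral_eq_integral_of_forall_compl_eq_zero, mol_int hε]
      intro y hy
      by_contra h
      exact hy (mem_closedBall_zero_iff.2 (norm_lt_of_mol hε h).le)
    rw [h5, smul_eq_mul, mul_one, Measure.real, ← univ_prod_univ, Measure.prod_prod,
      Measure.restrict_apply_univ, Measure.restrict_apply_univ, Real.volume_Ioc, Real.volume_Ioc,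
      sub_zero, sub_zero, ENNReal.ofReal_one, one_mul, ENNReal.toReal_ofReal two_pi_pos.le]
  rw [h3] at h2
  rw [inv_mul_eq_div, div_le_iff₀ two_pi_pos]
  exact h2

/-- PMP. -/
theorem pmp : S_PMP := by
  intro n a r ε hr hε f hf
  -- cut off
  set φ : ContDiffBump a :=
    { rIn := 5 / 4 * (r + ε)
      rOut := 3 / 2 * (r + ε)
      rIn_pos := by positivity
      rIn_lt_rOut := by nlinarith } with hφ
  set F : Cn n → ℂ := fun x => (φ x : ℂ) * f x with hF
  have hFs : ContDiff ℝ ∞ F := by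
    rw [contDiff_iff_contDiffAt]
    intro x
    by_cases hx : x ∈ ball a (2 * (r + ε))
    · have h1 : ContDiffAt ℝ ∞ f x := hf.contDiffAt (isOpen_ball.mem_nhds hx)
      have h2 : ContDiffAt ℝ ∞ (fun x => (φ x : ℂ)) x :=
        (Complex.ofRealCLM.contDiff.comp φ.contDiff).contDiffAt
      exact h2.mul h1
    · have h1 : F =ᶠ[𝓝 x] fun _ => 0 := by
        have h2 : (closedBall a (3 / 2 * (r + ε)))ᶜ ∈ 𝓝 x := by
          refine isClosed_closedBall.isOpen_compl.mem_nhds ?_
          intro h3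
          apply hx
          rw [mem_closedBall] at h3
          rw [mem_ball]
          nlinarith
        filter_upwards [h2] with y hy
        have h4 : φ y = 0 := by
          apply φ.zero_of_le_dist
          rw [mem_compl_iff, mem_closedBall, not_le] at hy
          exact hy.le
        simp only [hF, h4]
        simp
      exact contDiffAt_const.congr_of_eventuallyEq h1
  have heq : ∀ x ∈ closedBall a (5 / 4 * (r + ε)), F x = f x := by
    intro x hx
    have h1 : φ x = 1 := φ.one_of_mem_closedBall hx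
    simp only [hF, h1]
    simp
  have hcdb : ∀ x ∈ closedBall a (r + ε), ∀ l, cdb l F x = cdb l f x := by
    intro x hx l
    have h1 : F =ᶠ[𝓝 x] f := by
      have h2 : ball a (5 / 4 * (r + ε)) ∈ 𝓝 x := by
        refine isOpen_ball.mem_nhds ?_
        rw [mem_closedBall] at hx
        rw [mem_ball]
        nlinarith
      filter_upwards [h2] with y hy
      exact heq y (ball_subset_closedBall hy)
    unfold cdb
    rw [h1.fderiv_eq]
  have hmoll : ∀ x ∈ closedBall a r, mollc F ε x = mollc f ε x := by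
    intro x hx
    unfold mollc
    refine integral_congr_ae (Eventually.of_forall fun y => ?_)
    simp only
    by_cases hy : mol n ε y = 0
    · rw [hy]
      simp
    · have h1 := norm_lt_of_mol hε hy
      rw [heq]
      rw [mem_closedBall_iff_norm] at hx ⊢
      calc ‖x - y - a‖ = ‖(x - a) - y‖ := by congr 1; abel
        _ ≤ ‖x - a‖ + ‖y‖ := norm_sub_le _ _
        _ ≤ 5 / 4 * (r + ε) := by nlinarith
  have h1 : ∫ x in closedBall a r, ‖f x - mollc f ε x‖ =
      ∫ x in closedBall a r, ‖F x - mollc F ε x‖ := by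
    refine setIntegral_congr_fun measurableSet_closedBall (fun x hx => ?_)
    rw [hmoll x hx, heq x (closedBall_subset_closedBall (by nlinarith) hx)]
  have h2 : ∫ x in closedBall a (r + ε), ∑ l, ‖cdb l f x‖ =
      ∫ x in closedBall a (r + ε), SS F x := by
    refine setIntegral_congr_fun measurableSet_closedBall (fun x hx => ?_)
    simp only [SS]
    refine Finset.sum_congr rfl (fun l _ => ?_)
    rw [hcdb x hx l]
  rw [h1, h2]
  exact pmp_smooth hFs a hε

end Pool.Agent.Helper63.HS
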